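import Pool.Agent.Run7.h100.UN.Iface
import Pool.Agent.H58W.HtMap

/-!
Project UN, piece GOOD: good reduction for all large primes.
-/

set_option autoImplicit false

namespace Run7.h459.UN

open NumberField Height Module Polynomial
open Run7.h100.UN
open Pool.Agent.H58W (hev eval_homog hev_reflect coprime_reflect)

/-- Bezout identity with coefficients in every field which contains the coefficients -/
theorem bez (P Q : Qb[X]) (h : IsCoprime P Q) :
    ∃ U W : Qb[X], U * P + W * Q = 1 ∧ ∀ L : IntermediateField ℚ Qb, (∀ i, P.coeff i ∈ L) →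
      (∀ i, Q.coeff i ∈ L) → (∀ i, U.coeff i ∈ L) ∧ ∀ i, W.coeff i ∈ L := by
  let S : Set Qb := Set.range P.coeff ∪ Set.range Q.coeff
  let L0 : IntermediateField ℚ Qb := IntermediateField.adjoin ℚ S
  have hPm : ∀ i, P.coeff i ∈ L0 := fun i =>
    IntermediateField.subset_adjoin ℚ S (Or.inl ⟨i, rfl⟩)
  have hQm : ∀ i, Q.coeff i ∈ L0 := fun i =>
    IntermediateField.subset_adjoin ℚ S (Or.inr ⟨i, rfl⟩)
  obtain ⟨P0, hP0⟩ := (Polynomial.mem_lifts (f := algebraMap L0 Qb) P).mp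
    ((Polynomial.lifts_iff_coeff_lifts P).mpr fun i => ⟨⟨P.coeff i, hPm i⟩, rfl⟩)
  obtain ⟨Q0, hQ0⟩ := (Polynomial.mem_lifts (f := algebraMap L0 Qb) Q).mp
    ((Polynomial.lifts_iff_coeff_lifts Q).mpr fun i => ⟨⟨Q.coeff i, hQm i⟩, rfl⟩)
  have hc : IsCoprime P0 Q0 := by
    rw [← Polynomial.isCoprime_map (algebraMap L0 Qb), hP0, hQ0]
    exact h
  obtain ⟨u, w, huw⟩ := hc
  refine ⟨u.map (algebraMap L0 Qb), w.map (algebraMap L0 Qb), ?_, ?_⟩
  · rw [← hP0, ← hQ0, ← Polynomial.map_mul, ← Polynomial.map_mul, ← Polynomial.map_add, huw,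
      Polynomial.map_one]
  · intro L h1 h2
    have hle : L0 ≤ L := by
      rw [IntermediateField.adjoin_le_iff]
      rintro _ (⟨i, rfl⟩ | ⟨i, rfl⟩)
      · exact h1 i
      · exact h2 i
    exact ⟨fun i => by rw [coeff_map]; exact hle (u.coeff i).2,
      fun i => by rw [coeff_map]; exact hle (w.coeff i).2⟩

theorem bezhom (U W P Q : Qb[X]) (e d : ℕ) (hU : U.natDegree ≤ e) (hW : W.natDegree ≤ e)
    (hP : P.natDegree ≤ d) (hQ : Q.natDegree ≤ d) (h : U * P + W * Q = 1) (x y : Qb) :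
    hev U e x y * hev P d x y + hev W e x y * hev Q d x y = y ^ (e + d) := by
  have e0 : ∀ (R : Qb[X]) (n : ℕ), hev R n x y = MvPolynomial.eval ![x, y] (R.homogenize n) := by
    intro R n
    rw [eval_homog]
    simp
  rw [e0, e0, e0, e0, ← map_mul, ← map_mul, ← map_add,
    ← homogenize_mul U P hU hP, ← homogenize_mul W Q hW hQ, ← homogenize_add, h]
  simp

/-- homogeneous form with coefficients `c` -/
def hl {R : Type*} [CommRing R] (c : ℕ → R) (d : ℕ) (x y : R) : R :=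
  ∑ i ∈ Finset.range (d + 1), c i * x ^ i * y ^ (d - i)

theorem hl_le {L : Type*} [Field L] [NumberField L] (v : FinitePlace L) (c : ℕ → L) (d : ℕ)
    (x y : L) (hc : ∀ i, v (c i) ≤ 1) (hx : v x ≤ 1) (hy : v y ≤ 1) : v (hl c d x y) ≤ 1 := by
  unfold hl
  refine Finset.sum_induction _ (fun z => v z ≤ 1) ?_ ?_ ?_
  · intro a b ha hb
    exact (FinitePlace.add_le v a b).trans (max_le ha hb)
  · rw [map_zero]
    exact zero_le_one
  · intro i _
    rw [map_mul, map_mul, map_pow, map_pow]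
    exact mul_le_one₀ (mul_le_one₀ (hc i) (pow_nonneg (apply_nonneg v x) _)
      (pow_le_one₀ (apply_nonneg v x) hx)) (pow_nonneg (apply_nonneg v y) _)
      (pow_le_one₀ (apply_nonneg v y) hy)

theorem coe_hl (L : IntermediateField ℚ Qb) (P : Qb[X]) (c : ℕ → L)
    (hc : ∀ i, (c i : Qb) = P.coeff i) (d : ℕ) (x y : L) :
    ((hl c d x y : L) : Qb) = hev P d x y := by
  unfold hl hev
  push_cast
  refine Finset.sum_congr rfl fun i _ => ?_
  rw [hc i]

theorem unit1 (hUN : S_UNIT) (c : Qb) : ∃ n₀ : ℕ, ∀ p : ℕ, p.Prime → n₀ < p →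
    ∀ (L : IntermediateField ℚ Qb) [NumberField L] (x : L), (x : Qb) = c →
      ∀ v : FinitePlace L, v (p : L) < 1 → v x ≤ 1 := by
  by_cases hc : c = 0
  · refine ⟨0, fun p _ _ L _ x hx v _ => ?_⟩
    have : x = 0 := by
      apply Subtype.ext
      rw [hx, hc]
      rfl
    rw [this, map_zero]
    exact zero_le_one
  · obtain ⟨n0, h⟩ := hUN c hc
    exact ⟨n0, fun p hp hn L _ x hx v hv => (h p hp hn L x hx v hv).le⟩

theorem unitP (hUN : S_UNIT) (P : Qb[X]) : ∃ n₀ : ℕ, ∀ p : ℕ, p.Prime → n₀ < p →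
    ∀ (L : IntermediateField ℚ Qb) [NumberField L] (a : ℕ → L), (∀ i, (a i : Qb) = P.coeff i) →
      ∀ v : FinitePlace L, v (p : L) < 1 → ∀ i, v (a i) ≤ 1 := by
  choose f hf using unit1 hUN
  refine ⟨(Finset.range (P.natDegree + 1)).sup (fun i => f (P.coeff i)), ?_⟩
  intro p hp hn L _ a ha v hv i
  by_cases hi : i ≤ P.natDegree
  · refine hf (P.coeff i) p hp (lt_of_le_of_lt ?_ hn) L (a i) (ha i) v hv
    exact Finset.le_sup (f := fun i => f (P.coeff i)) (Finset.mem_range.mpr (by omega))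
  · have : a i = 0 := by
      apply Subtype.ext
      rw [ha i, coeff_eq_zero_of_natDegree_lt (by omega)]
      rfl
    rw [this, map_zero]
    exact zero_le_one

theorem side (hUN : S_UNIT) (P Q : Qb[X]) (d : ℕ) (hP : P.natDegree ≤ d) (hQ : Q.natDegree ≤ d)
    (hco : IsCoprime P Q) : ∃ n₀ : ℕ, ∀ p : ℕ, p.Prime → n₀ < p →
    ∀ (L : IntermediateField ℚ Qb) [NumberField L], (∀ i, P.coeff i ∈ L) →
      (∀ i, Q.coeff i ∈ L) → ∀ v : FinitePlace L, v (p : L) < 1 →
        ∀ x y A B : L, v x ≤ 1 → v y ≤ 1 → (A : Qb) = hev P d x y → (B : Qb) = hev Q d x y →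
          v A < 1 → v B < 1 → v y < 1 := by
  obtain ⟨U, W, hUW, hmem⟩ := bez P Q hco
  obtain ⟨n1, h1⟩ := unitP hUN U
  obtain ⟨n2, h2⟩ := unitP hUN W
  refine ⟨max n1 n2, ?_⟩
  intro p hp hn L _ hPL hQL v hv x y A B hx hy hA hB hvA hvB
  obtain ⟨hU, hW⟩ := hmem L hPL hQL
  let u : ℕ → L := fun i => ⟨U.coeff i, hU i⟩
  let w : ℕ → L := fun i => ⟨W.coeff i, hW i⟩
  have hu := h1 p hp ((le_max_left _ _).trans_lt hn) L u (fun _ => rfl) v hv
  have hw := h2 p hp ((le_max_right _ _).trans_lt hn) L w (fun _ => rfl) v hv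
  set e := max U.natDegree W.natDegree with he
  have key : hl u e x y * A + hl w e x y * B = y ^ (e + d) := by
    apply Subtype.ext
    push_cast
    rw [coe_hl L U u (fun _ => rfl), coe_hl L W w (fun _ => rfl), hA, hB]
    exact bezhom U W P Q e d (le_max_left _ _) (le_max_right _ _) hP hQ hUW x y
  have h3 : v (y ^ (e + d)) < 1 := by
    rw [← key]
    refine (FinitePlace.add_le v _ _).trans_lt (max_lt ?_ ?_)
    · rw [map_mul]
      exact mul_lt_one_of_nonneg_of_lt_one_right (hl_le v u e x y hu hx hy)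
        (apply_nonneg v A) hvA
    · rw [map_mul]
      exact mul_lt_one_of_nonneg_of_lt_one_right (hl_le v w e x y hw hx hy)
        (apply_nonneg v B) hvB
  by_contra hge
  push Not at hge
  have h4 : v y = 1 := le_antisymm hy hge
  rw [map_pow, h4, one_pow] at h3
  exact lt_irrefl _ h3

theorem refl_deg (P : Qb[X]) (d : ℕ) (hP : P.natDegree ≤ d) : (P.reflect d).natDegree ≤ d := by
  rw [natDegree_le_iff_coeff_eq_zero]
  intro n hn
  rw [coeff_reflect, revAt_eq_self_of_lt hn]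
  exact coeff_eq_zero_of_natDegree_lt (by omega)

theorem t_GOOD : S_UNIT → S_GOOD := by
  intro hUN P Q d hco hd hd0
  have hP : P.natDegree ≤ d := hd ▸ le_max_left _ _
  have hQ : Q.natDegree ≤ d := hd ▸ le_max_right _ _
  obtain ⟨n1, h1⟩ := unitP hUN P
  obtain ⟨n2, h2⟩ := unitP hUN Q
  obtain ⟨n3, h3⟩ := side hUN P Q d hP hQ hco
  obtain ⟨n4, h4⟩ := side hUN (P.reflect d) (Q.reflect d) d (refl_deg P d hP) (refl_deg Q d hQ)
    (coprime_reflect P Q d hd hd0 hco)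
  refine ⟨max (max n1 n2) (max n3 n4), ?_⟩
  intro p hp hn L _ a b ha hb v hv
  rw [max_lt_iff, max_lt_iff, max_lt_iff] at hn
  obtain ⟨⟨hn1, hn2⟩, hn3, hn4⟩ := hn
  have hva := h1 p hp hn1 L a ha v hv
  have hvb := h2 p hp hn2 L b hb v hv
  refine ⟨hva, hvb, ?_⟩
  intro z hz
  have hx : v z.1 ≤ 1 := hz ▸ le_max_left _ _
  have hy : v z.2 ≤ 1 := hz ▸ le_max_right _ _
  have hPL : ∀ i, P.coeff i ∈ L := fun i => ha i ▸ (a i).2
  have hQL : ∀ i, Q.coeff i ∈ L := fun i => hb i ▸ (b i).2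
  have hA : ((hl a d z.1 z.2 : L) : Qb) = hev P d z.1 z.2 := coe_hl L P a ha d z.1 z.2
  have hB : ((hl b d z.1 z.2 : L) : Qb) = hev Q d z.1 z.2 := coe_hl L Q b hb d z.1 z.2
  have hA1 : v (hl a d z.1 z.2) ≤ 1 := hl_le v a d z.1 z.2 hva hx hy
  have hB1 : v (hl b d z.1 z.2) ≤ 1 := hl_le v b d z.1 z.2 hvb hx hy
  show max (v (hl a d z.1 z.2)) (v (hl b d z.1 z.2)) = 1
  refine le_antisymm (max_le hA1 hB1) ?_
  by_contra hlt
  push Not at hlt
  rw [max_lt_iff] at hlt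
  have hy1 := h3 p hp hn3 L hPL hQL v hv z.1 z.2 _ _ hx hy hA hB hlt.1 hlt.2
  have hx1 := h4 p hp hn4 L (fun i => by rw [coeff_reflect]; exact hPL _)
    (fun i => by rw [coeff_reflect]; exact hQL _) v hv z.2 z.1 (hl a d z.1 z.2) (hl b d z.1 z.2)
    hy hx (by rw [hA, hev_reflect]) (by rw [hB, hev_reflect]) hlt.1 hlt.2
  have := max_lt hx1 hy1
  rw [hz] at this
  exact lt_irrefl _ this

end Run7.h459.UN
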